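import Mathlib

set_option autoImplicit false

namespace Pool.Agent.Results.MP_8a180b_co.Yes

open Finset
open scoped RealInnerProductSpace

/-- the complementary theta number: the infimum of `max 1 / ⟪c, u i⟫ ^ 2` over dual orthonormal
representations `u` (any dimension) and unit vectors `c` -/
noncomputable def theta {V : Type} (G : SimpleGraph V) : ℝ :=
  sInf {s | ∃ (d : ℕ) (u : V → EuclideanSpace ℝ (Fin d)) (c : EuclideanSpace ℝ (Fin d)), ‖c‖ = 1 ∧
    (∀ i, ‖u i‖ = 1) ∧ (∀ i j, G.Adj i j → ⟪u i, u j⟫ = 0) ∧ ∀ i, ⟪c, u i⟫ ≠ 0 ∧ 1 / ⟪c, u i⟫ ^ 2 ≤ s}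

/-- the generalized Mycielskian: levels `0, …, r - 1` and the vertex `none` for the level `r` -/
def myc {V : Type} (r : ℕ) (G : SimpleGraph V) : SimpleGraph (Option (V × Fin r)) :=
  .fromRel fun a b => match a, b with
    | some (v, i), some (w, j) => G.Adj v w ∧ (i.1 + 1 = j.1 ∨ i.1 = 0 ∧ j.1 = 0)
    | some (v, i), none => (∃ w, G.Adj v w) ∧ i.1 + 1 = r
    | none, _ => False

variable {V W A : Type} [Fintype V] [Fintype W] [Fintype A]

def P (M : V → V → ℝ) : Prop := (∀ i j, M i j = M j i) ∧ ∀ x : V → ℝ, 0 ≤ ∑ i, ∑ j, x i * x j * M i j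

lemma Pof {ι : Type} [Fintype ι] {M : V → V → ℝ} (v : ι → V → ℝ) (h : ∀ i j, M i j = ∑ k, v k i * v k j) :
    P M := by
  refine ⟨fun i j => by simp only [h, mul_comm], fun x => ?_⟩
  have : ∑ i, ∑ j, x i * x j * M i j = ∑ k, (∑ i, x i * v k i) * ∑ i, x i * v k i := by
    simp only [h, mul_sum, sum_mul]
    rw [sum_comm (γ := ι)]
    refine sum_congr rfl fun i _ => ?_
    rw [sum_comm (γ := ι)]
    exact sum_congr rfl fun j _ => sum_congr rfl fun k _ => by ring
  rw [this]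
  exact sum_nonneg fun k _ => mul_self_nonneg _

lemma P.fac {M : V → V → ℝ} (h : P M) : ∃ (m : ℕ) (v : Fin m → V → ℝ), ∀ i j, M i j = ∑ k, v k i * v k j := by
  have : (Matrix.of M).PosSemidef := .of_dotProduct_mulVec_nonneg (by ext i j; simpa using h.1 j i) fun x => by
    refine (h.2 x).trans_eq ?_
    simp only [dotProduct, Matrix.mulVec, mul_sum, star_trivial, Matrix.of_apply]
    exact sum_congr rfl fun i _ => sum_congr rfl fun j _ => by ring
  obtain ⟨m, v, e⟩ := Matrix.posSemidef_iff_eq_sum_vecMulVec.1 this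
  exact ⟨m, v, fun i j => by simpa [Matrix.sum_apply, Matrix.vecMulVec_apply] using congrFun (congrFun e i) j⟩

lemma P.add {M N : V → V → ℝ} (h : P M) (k : P N) {a b : ℝ} (ha : 0 ≤ a) (hb : 0 ≤ b) :
    P fun i j => a * M i j + b * N i j := by
  refine ⟨fun i j => by simp only [h.1 i j, k.1 i j], fun x => ?_⟩
  refine (add_nonneg (mul_nonneg ha (h.2 x)) (mul_nonneg hb (k.2 x))).trans_eq ?_
  simp only [mul_sum, ← sum_add_distrib]
  exact sum_congr rfl fun i _ => sum_congr rfl fun j _ => by ring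

lemma P.two [DecidableEq V] {M : V → V → ℝ} (h : P M) (i j : V) (a b : ℝ) :
    0 ≤ a * a * M i i + 2 * a * b * M i j + b * b * M j j := by
  convert h.2 (Pi.single i a + Pi.single j b) using 1
  simp [add_mul, mul_add, sum_add_distrib, Pi.single_apply, h.1 j i]
  ring

lemma Pdiag [DecidableEq V] (d : V → ℝ) (h : ∀ i, 0 ≤ d i) : P fun i j => if i = j then d i else 0 :=
  ⟨fun i j => by by_cases k : i = j <;> simp [k, eq_comm (a := j)], fun x => by
    simpa using sum_nonneg fun i _ => mul_nonneg (mul_self_nonneg (x i)) (h i)⟩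

lemma contr {U : Type} [Fintype U] {B : V → V → ℝ} {Y : W → W → ℝ} {Z : U → U → ℝ} (hB : P B) (hY : P Y)
    (hZ : P Z) (π : A → V → W) (g : A → U) :
    P fun a b => Z (g a) (g b) * ∑ v, ∑ w, B v w * Y (π a v) (π b w) := by
  obtain ⟨m, p, e1⟩ := hB.fac
  obtain ⟨n, q, e2⟩ := hY.fac
  obtain ⟨l, r, e3⟩ := hZ.fac
  refine Pof (fun (k : Fin l × Fin m × Fin n) a => r k.1 (g a) * ∑ v, p k.2.1 v * q k.2.2 (π a v)) fun a b => ?_
  have : ∑ v, ∑ w, B v w * Y (π a v) (π b w) = ∑ k : Fin m × Fin n,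
      (∑ v, p k.1 v * q k.2 (π a v)) * ∑ v, p k.1 v * q k.2 (π b v) := by
    have : ∀ v w, B v w * Y (π a v) (π b w) = ∑ k : Fin m × Fin n,
        (p k.1 v * q k.2 (π a v)) * (p k.1 w * q k.2 (π b w)) := fun v w => by
      rw [e1, e2, sum_mul_sum, Fintype.sum_prod_type]
      exact sum_congr rfl fun i _ => sum_congr rfl fun j _ => by ring
    simp only [this, sum_mul_sum]
    rw [sum_comm (γ := Fin m × Fin n)]
    exact sum_congr rfl fun v _ => sum_comm
  rw [this, e3, sum_mul_sum, Fintype.sum_prod_type]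
  exact sum_congr rfl fun i _ => sum_congr rfl fun j _ => by ring

def GR (G : SimpleGraph V) (s : ℝ) : Prop :=
  ∃ Z, P Z ∧ (∀ v, Z v v ≤ s - 1) ∧ ∀ v w, G.Adj v w → Z v w = -1

lemma GR.one [Nonempty V] {G : SimpleGraph V} {s : ℝ} (h : GR G s) : 1 ≤ s := by
  classical
  obtain ⟨Z, h1, h2, -⟩ := h
  obtain ⟨v⟩ := ‹Nonempty V›
  linarith [h1.two v v 1 0, h2 v]

lemma GR.eq {G : SimpleGraph V} {s : ℝ} (h : GR G s) :
    ∃ Z, P Z ∧ (∀ v, Z v v = s - 1) ∧ ∀ v w, G.Adj v w → Z v w = -1 := by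
  classical
  obtain ⟨Z, h1, h2, h3⟩ := h
  exact ⟨_, h1.add (Pdiag (fun v => s - 1 - Z v v) fun v => sub_nonneg.2 (h2 v)) zero_le_one zero_le_one,
    fun v => by simp, fun v w k => by simp [k.ne, h3 v w k]⟩

lemma theta_eq [Nonempty V] (G : SimpleGraph V) : theta G = sInf {s | GR G s} := by
  unfold theta
  congr 1
  ext s
  constructor
  · rintro ⟨d, u, c, h1, h2, h3, h4⟩
    have e : ∀ i j, ∑ k, (c k - u i k / ⟪c, u i⟫) * (c k - u j k / ⟪c, u j⟫) =
        ⟪u i, u j⟫ / (⟪c, u i⟫ * ⟪c, u j⟫) - 1 := fun i j => by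
      have a : ∀ x y : EuclideanSpace ℝ (Fin d), ∑ k, x k * y k = ⟪x, y⟫ := fun x y => by
        simp [PiLp.inner_apply, mul_comm]
      have b : ∀ k, (c k - u i k / ⟪c, u i⟫) * (c k - u j k / ⟪c, u j⟫) = c k * c k - c k * u i k / ⟪c, u i⟫ -
        c k * u j k / ⟪c, u j⟫ + u i k * u j k / (⟪c, u i⟫ * ⟪c, u j⟫) := fun k => by ring
      simp only [b, sum_add_distrib, sum_sub_distrib, ← sum_div, a, real_inner_self_eq_norm_sq, h1,
        div_self (h4 _).1]
      ring
    refine ⟨_, Pof (fun k i => c k - u i k / ⟪c, u i⟫) fun i j => rfl, fun v => ?_, fun v w k => ?_⟩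
    · rw [e, real_inner_self_eq_norm_sq, h2, one_pow, ← sq]; linarith [(h4 v).2]
    · rw [e, h3 v w k]; simp
  · intro h
    have s1 := h.one
    obtain ⟨Z, h1, h2, h3⟩ := h.eq
    obtain ⟨m, v, e⟩ := h1.fac
    have s0 : √s ≠ 0 := by positivity
    have s2 : √s * √s = s := Real.mul_self_sqrt (by linarith)
    have a : ∀ i j, ⟪(WithLp.toLp 2 (Fin.cons (1 / √s) fun k => v k i / √s) : EuclideanSpace ℝ (Fin (m + 1))),
        WithLp.toLp 2 (Fin.cons (1 / √s) fun k => v k j / √s)⟫ = (1 + Z i j) / s := fun i j => by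
      simp only [PiLp.inner_apply, Fin.sum_univ_succ, Fin.cons_zero, Fin.cons_succ, RCLike.inner_apply,
        conj_trivial, div_mul_div_comm, s2, ← sum_div, e, mul_comm (v _ j), add_div, mul_one]
    refine ⟨m + 1, fun i => WithLp.toLp 2 (Fin.cons (1 / √s) fun k => v k i / √s),
      EuclideanSpace.single 0 1, by simp, fun i => ?_, fun i j k => by rw [a, h3 i j k]; simp, fun i => ?_⟩
    · rw [← sq_eq_sq₀ (norm_nonneg _) zero_le_one, ← real_inner_self_eq_norm_sq, a, h2]
      field_simp; ring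
    · simp [EuclideanSpace.inner_single_left, s0, sq, s2]

lemma cpt [DecidableEq V] (R : ℝ) (S : Set (V → V → ℝ)) (h1 : IsClosed S) (h2 : ∀ M ∈ S, ∀ v, M v v ≤ R) :
    IsCompact ({M | P M} ∩ S) := by
  refine (isCompact_Icc (a := fun _ _ => -R) (b := fun _ _ => R)).of_isClosed_subset (.inter ?_ h1)
    fun M ⟨a, b⟩ => ⟨fun v w => ?_, fun v w => ?_⟩
  · simp only [P, Set.ofPred_and, Set.ofPred_forall]
    exact (isClosed_iInter fun _ => isClosed_iInter fun _ => isClosed_eq (by fun_prop) (by fun_prop)).inter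
      (isClosed_iInter fun _ => isClosed_le continuous_const (by fun_prop))
  · linarith [a.two v w 1 1, h2 M b v, h2 M b w]
  · linarith [a.two v w 1 (-1), h2 M b v, h2 M b w]

lemma GR.lim {G : SimpleGraph V} {t : ℝ} (h : ∀ s, t < s → GR G s) : GR G t := by
  classical
  let K : ℕ → Set (V → V → ℝ) := fun n => {M | P M} ∩
    {Z | (∀ v, Z v v ≤ t + 1 / ((n : ℝ) + 1) - 1) ∧ ∀ v w, G.Adj v w → Z v w = -1}
  have c : ∀ n, IsCompact (K n) := fun n => cpt _ _ (by
    simp only [Set.ofPred_and, Set.ofPred_forall]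
    exact (isClosed_iInter fun _ => isClosed_le (by fun_prop) continuous_const).inter
      (isClosed_iInter fun _ => isClosed_iInter fun _ => isClosed_iInter fun _ =>
        isClosed_eq (by fun_prop) continuous_const)) fun M k => k.1
  obtain ⟨Z, hZ⟩ := IsCompact.nonempty_iInter_of_sequence_nonempty_isCompact_isClosed K
    (fun n Z k => ⟨k.1, fun v => (k.2.1 v).trans (by push_cast; gcongr; linarith), k.2.2⟩)
    (fun n => h _ (lt_add_of_pos_right _ Nat.one_div_pos_of_nat)) (c 0) fun n => (c n).isClosed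
  rw [Set.mem_iInter] at hZ
  refine ⟨Z, (hZ 0).1, fun v => le_of_forall_pos_le_add fun ε e => ?_, (hZ 0).2.2⟩
  obtain ⟨n, k⟩ := exists_nat_one_div_lt e
  linarith [(hZ n).2.1 v]

lemma dual [Nonempty V] [DecidableEq V] (G : SimpleGraph V) : ∃ B t, P B ∧ ∑ v, B v v = 1 ∧
    (∀ v w, v ≠ w → ¬ G.Adj v w → B v w = 0) ∧ ∑ v, ∑ w, B v w = t ∧
    P (fun v w => (if v = w then t * B v v else 0) - B v w) ∧ ∀ s, t < s → GR G s := by
  obtain ⟨o⟩ := ‹Nonempty V›
  have c1 : IsClosed {M : V → V → ℝ | ∑ v, M v v = 1} := isClosed_eq (by fun_prop) continuous_const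
  have c2 : IsClosed {M : V → V → ℝ | ∀ v w, v ≠ w → ¬ G.Adj v w → M v w = 0} := by
    simp only [Set.ofPred_forall]
    exact isClosed_iInter fun _ => isClosed_iInter fun _ => isClosed_iInter fun _ => isClosed_iInter fun _ =>
      isClosed_eq (by fun_prop) continuous_const
  have c3 : IsCompact ({M : V → V → ℝ | P M} ∩ {M | ∑ v, M v v = 1}) := by
    convert cpt 1 ({M : V → V → ℝ | ∑ v, M v v = 1} ∩ {M | ∀ v, M v v ≤ 1}) (c1.inter (by
      simp only [Set.ofPred_forall]
      exact isClosed_iInter fun _ => isClosed_le (by fun_prop) continuous_const)) (fun M k => k.2) using 1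
    ext M
    refine ⟨fun k => ⟨k.1, k.2, fun v => ?_⟩, fun k => ⟨k.1, k.2.1⟩⟩
    exact (single_le_sum (f := fun v => M v v) (fun i _ => by linarith [k.1.two i i 1 0]) (mem_univ v)).trans k.2.le
  let E : V → V → V → V → ℝ := fun a b => Pi.single a (Pi.single b 1)
  have E1 : ∀ a b v w, E a b v w = if v = a ∧ w = b then 1 else 0 := fun a b v w => by
    by_cases x : v = a <;> by_cases y : w = b <;> simp [E, x, y]
  have E2 : ∀ a b, ∑ v, ∑ w, E a b v w = 1 := fun a b => by simp [E1, ite_and]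
  have E3 : P (E o o) ∧ ∑ v, E o o v v = 1 :=
    ⟨Pof (fun (_ : Unit) i => if i = o then 1 else 0) fun i j => by
      by_cases x : i = o <;> by_cases y : j = o <;> simp [E1, x, y], by simp [E1]⟩
  have E4 : ∀ a b, a = b ∨ G.Adj a b → ∀ v w, v ≠ w → ¬ G.Adj v w → E a b v w = 0 := fun a b k v w x y => by
    rw [E1, if_neg]; rintro ⟨rfl, rfl⟩; tauto
  obtain ⟨B, ⟨⟨b1, b2⟩, b3⟩, hB⟩ := (c3.inter_right c2).exists_isMaxOn ⟨E o o, E3, E4 o o (.inl rfl)⟩
    (show Continuous fun M : V → V → ℝ => ∑ v, ∑ w, M v w by fun_prop).continuousOn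
  refine ⟨B, _, b1, b2, b3, rfl, ⟨fun i j => ?_, fun x => ?_⟩, fun s hs => ?_⟩
  · by_cases k : i = j <;> simp [k, eq_comm (a := j), b1.1 i j]
  · obtain ⟨m, p, e⟩ := b1.fac
    have p1 : P fun v w => x v * x w * B v w := Pof (fun k i => x i * p k i) fun i j => by
      rw [e, mul_sum]; exact sum_congr rfl fun k _ => by ring
    have p2 : 0 < ∑ v, x v * x v * B v v + 1 := by
      have := sum_nonneg fun v (_ : v ∈ univ) => mul_nonneg (mul_self_nonneg (x v))
        (show 0 ≤ B v v by linarith [b1.two v v 1 0])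
      linarith
    have := hB (show _ ∈ _ from ⟨⟨p1.add b1 (inv_pos.2 p2).le (inv_pos.2 p2).le, by
      simp only [Set.mem_ofPred_eq, sum_add_distrib, ← mul_sum]
      rw [← mul_add, show ∑ v, B v v = 1 from b2, inv_mul_cancel₀ p2.ne']⟩, fun v w a b => by simp [b3 v w a b]⟩)
    simp only [Set.mem_ofPred_eq, sum_add_distrib, ← mul_sum, ← mul_add] at this
    rw [inv_mul_le_iff₀ p2] at this
    simp only [mul_sub, sum_sub_distrib, mul_ite, mul_zero, sum_ite_eq, mem_univ, if_true]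
    have q : ∑ v, x v * x v * ((∑ v, ∑ w, B v w) * B v v) = (∑ v, ∑ w, B v w) * ∑ v, x v * x v * B v v := by
      rw [mul_sum]; exact sum_congr rfl fun _ _ => by ring
    rw [q]; linarith
  have t1 : 1 ≤ ∑ v, ∑ w, B v w := (E2 o o).ge.trans (hB (show _ ∈ _ from ⟨E3, E4 o o (.inl rfl)⟩))
  obtain ⟨f, u, y, f1, f2, f3⟩ := geometric_hahn_banach_compact_closed
    (s := {M : V → V → ℝ | P M} ∩ {M | ∑ v, M v v = 1}) (t := {M : V → V → ℝ | ∀ v w, v ≠ w → ¬ G.Adj v w → M v w = 0} ∩ {M | s ≤ ∑ v, ∑ w, M v w})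
    (fun M h N k a b ha hb e => ⟨h.1.add k.1 ha hb, by
      simp [sum_add_distrib, ← mul_sum, show ∑ v, M v v = 1 from h.2, show ∑ v, N v v = 1 from k.2, e]⟩) c3
    (fun M h N k a b ha hb e => ⟨fun v w x z => by simp [h.1 v w x z, k.1 v w x z], by
      have := mul_le_mul_of_nonneg_left (show s ≤ _ from h.2) ha
      have := mul_le_mul_of_nonneg_left (show s ≤ _ from k.2) hb
      simp only [Set.mem_ofPred_eq, Pi.add_apply, Pi.smul_apply, smul_eq_mul, sum_add_distrib, ← mul_sum]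
      nlinarith [show a * s + b * s = s by rw [← add_mul, e, one_mul]]⟩)
    (c2.inter (isClosed_le continuous_const (by fun_prop)))
    (Set.disjoint_left.2 fun M h k => absurd (hB (show _ ∈ _ from ⟨h, k.1⟩)) (not_le.2 (hs.trans_le k.2)))
  have g1 : ∀ a b, a = b ∨ G.Adj a b → ∀ c : ℝ, y < s * f (E o o) + c * (f (E a b) - f (E o o)) :=
    fun a b k c => by
      simpa using f3 (s • E o o + c • (E a b - E o o)) ⟨fun v w x z => by
        simp [E4 a b k v w x z, E4 o o (.inl rfl) v w x z], by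
        simp [sum_add_distrib, ← mul_sum, E2]⟩
  have g2 : ∀ a b, a = b ∨ G.Adj a b → f (E a b) = f (E o o) := fun a b k => by
    by_contra c
    have := g1 a b k ((y - s * f (E o o)) / (f (E a b) - f (E o o)))
    rw [div_mul_cancel₀ _ (sub_ne_zero.2 c)] at this
    linarith
  have g3 := g1 o o (.inl rfl) 0
  have g4 : 0 < f (E o o) := by nlinarith [f1 _ E3]
  have g5 : ∀ M : V → V → ℝ, f M = ∑ v, ∑ w, M v w * f (E v w) := fun M => by
    have : M = ∑ v, ∑ w, M v w • E v w := by ext a b; simp [Finset.sum_apply, E1, ite_and]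
    conv_lhs => rw [this]
    simp
  refine ⟨fun v w => (if v = w then s else 0) - (f (E v w) + f (E w v)) / (2 * f (E o o)),
    ⟨fun i j => by simp only [eq_comm (a := j), add_comm], fun x => ?_⟩, fun v => ?_, fun v w k => ?_⟩
  · have q1 : ∑ i, ∑ j, x i * x j * f (E j i) = ∑ i, ∑ j, x i * x j * f (E i j) := by
      rw [sum_comm]; exact sum_congr rfl fun i _ => sum_congr rfl fun j _ => by ring
    have q2 : ∑ i, ∑ j, x i * x j * f (E i j) ≤ s * f (E o o) * ∑ i, x i * x i := by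
      rcases (sum_nonneg fun i (_ : i ∈ univ) => mul_self_nonneg (x i)).eq_or_lt with k | k
      · have : ∀ i, x i = 0 := fun i => mul_self_eq_zero.1
          ((sum_eq_zero_iff_of_nonneg fun i _ => mul_self_nonneg (x i)).1 k.symm i (mem_univ _))
        simp [this]
      · have := f1 (fun i j => (∑ i, x i * x i)⁻¹ * (x i * x j)) ⟨by
          simpa using (Pof (M := fun i j => x i * x j) (fun (_ : Unit) => x) (by simp)).add E3.1
            (inv_pos.2 k).le le_rfl, by simp [← mul_sum, k.ne']⟩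
        rw [g5] at this
        simp only [mul_assoc _⁻¹, ← mul_sum] at this
        rw [inv_mul_lt_iff₀ k] at this
        nlinarith
    simp only [mul_sub, sum_sub_distrib, mul_ite, mul_zero, sum_ite_eq, mem_univ, if_true, ← mul_div_assoc,
      mul_add, ← sum_div, sum_add_distrib, q1, ← sum_mul]
    rw [sub_nonneg, div_le_iff₀ (by positivity)]
    linarith
  · beta_reduce
    rw [if_pos rfl, g2 v v (.inl rfl), ← two_mul, div_self (by positivity)]
  · beta_reduce
    rw [if_neg k.ne, g2 v w (.inr k), g2 w v (.inr k.symm), ← two_mul, div_self (by positivity), zero_sub]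

lemma P.row {M : V → V → ℝ} (h : P M) (k : ∑ v, ∑ w, M v w = 0) (v : V) : ∑ w, M v w = 0 := by
  obtain ⟨m, p, e⟩ := h.fac
  have a : ∀ v, ∑ w, M v w = ∑ k, p k v * ∑ w, p k w := fun v => by
    simp only [e, mul_sum]; exact sum_comm
  have b : ∑ k, (∑ w, p k w) * ∑ w, p k w = 0 := by
    rw [← k]; simp only [a, sum_mul]; exact sum_comm
  rw [a]
  exact sum_eq_zero fun j _ => by
    rw [mul_self_eq_zero.1 ((sum_eq_zero_iff_of_nonneg fun _ _ => mul_self_nonneg _).1 b j (mem_univ _)), mul_zero]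

lemma step [Nonempty W] [DecidableEq V] [DecidableEq W] {G : SimpleGraph V} {H : SimpleGraph W} {B : V → V → ℝ} {t s : ℝ}
    {r : ℕ} (b1 : P B) (b2 : ∑ v, B v v = 1) (b3 : ∀ v w, v ≠ w → ¬ G.Adj v w → B v w = 0)
    (b4 : ∑ v, ∑ w, B v w = t) (b5 : P fun v w => (if v = w then t * B v v else 0) - B v w) (hH : GR H t)
    (hG : GR (myc r G) s) : GR (myc r H) s := by
  have s1 := hG.one
  obtain ⟨Z, z1, z2, z3⟩ := hH.eq
  obtain ⟨Y, y1, y2, y3⟩ := hG.eq
  obtain ⟨o⟩ := ‹Nonempty W›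
  by_cases e : ∃ a b, H.Adj a b
  swap
  · refine ⟨fun _ _ => 0, ⟨fun _ _ => rfl, fun _ => by simp⟩, fun _ => by linarith, fun a b k => (e ?_).elim⟩
    rcases a with _ | ⟨a, i⟩ <;> rcases b with _ | ⟨b, j⟩ <;> simp [myc] at k
    · exact ⟨_, k.1⟩
    · exact ⟨_, k.1⟩
    · exact k.2.elim (fun k => ⟨_, _, k.1⟩) fun k => ⟨_, _, k.1⟩
  obtain ⟨a, b, e⟩ := e
  have t2 : 2 ≤ t := by linarith [z1.two a b 1 1, z2 a, z2 b, z3 a b e]
  have t0 : t ≠ 0 := by linarith
  have t1 : t - 1 ≠ 0 := by linarith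
  have r1 : ∀ v, ∑ w, B v w = t * B v v := fun v => by
    have := b5.row (by simp [b4, ← mul_sum, b2]) v
    simp at this; linarith
  have r2 : ∀ v, (¬ ∃ w, G.Adj v w) → B v v = 0 := fun v k => by
    have := r1 v
    rw [sum_eq_single v (fun w _ x => b3 v w x.symm fun y => k ⟨w, y⟩) (by simp)] at this
    exact (mul_eq_zero.1 (show (t - 1) * B v v = 0 by linarith)).resolve_left t1
  let π : Option (W × Fin r) → V → Option (V × Fin r) := fun a v => a.map fun x => (v, x.2)
  let g : Option (W × Fin r) → W := fun a => a.elim o (·.1)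
  have p := (contr (Z := fun _ _ : Unit => 1) b1 y1 (Pof (fun (_ : Unit) _ => 1) (by simp)) π fun _ => ()).add
    (contr b5 y1 z1 π g) (a := 1 / t) (b := 1 / (t * (t - 1))) (by positivity)
    (by have : 0 < t - 1 := by linarith
        positivity)
  have x1 : ∀ a i, (∃ w, H.Adj a w) → i.1 + 1 = r → 1 / t * (1 * ∑ v, ∑ w, B v w * Y (π (some (a, i)) v) (π none w)) +
      1 / (t * (t - 1)) * (Z (g (some (a, i))) (g none) * ∑ v, ∑ w, ((if v = w then t * B v v else 0) - B v w) *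
        Y (π (some (a, i)) v) (π none w)) = -1 := fun a i _ k => by
    have : ∀ v, B v v * Y (some (v, i)) none = -B v v := fun v => by
      by_cases x : ∃ w, G.Adj v w
      · rw [y3 _ _ (by simp [myc, x, k])]; ring
      · simp [r2 v x]
    simp only [π, Option.map, ← sum_mul, sum_sub_distrib, sum_ite_eq, mem_univ, if_true, r1, sub_self, zero_mul,
      sum_const_zero, mul_assoc, this, ← mul_sum, sum_neg_distrib, b2]
    field_simp; ring
  have x2 : ∀ a b i j, H.Adj a b → (i.1 + 1 = j.1 ∨ i.1 = 0 ∧ j.1 = 0) →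
      1 / t * (1 * ∑ v, ∑ w, B v w * Y (π (some (a, i)) v) (π (some (b, j)) w)) +
      1 / (t * (t - 1)) * (Z (g (some (a, i))) (g (some (b, j))) * ∑ v, ∑ w,
        ((if v = w then t * B v v else 0) - B v w) * Y (π (some (a, i)) v) (π (some (b, j)) w)) = -1 :=
    fun a b i j e k => by
    have : ∀ v w, B v w * Y (some (v, i)) (some (w, j)) =
        (if v = w then B v v * (Y (some (v, i)) (some (v, j)) + 1) else 0) - B v w := fun v w => by
      by_cases x : v = w
      · subst x; simp; ring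
      by_cases y : G.Adj v w
      · rw [y3 _ _ (by simp [myc, x, y, k])]; simp [x]
      · simp [b3 v w x y, x]
    simp only [π, g, Option.map, Option.elim, z3 a b e, sub_mul, ite_mul, zero_mul, sum_sub_distrib, sum_ite_eq,
      mem_univ, if_true]
    rw [sum_congr rfl fun v _ => sum_congr rfl fun w _ => this v w]
    simp only [sum_sub_distrib, sum_ite_eq, mem_univ, if_true, b4, mul_add, mul_one, sum_add_distrib, b2,
      mul_assoc, ← mul_sum]
    field_simp; ring
  refine ⟨_, p, fun a => le_of_eq ?_, fun a b k => ?_⟩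
  · simp only [z2, sub_mul, ite_mul, zero_mul, sum_sub_distrib, sum_ite_eq, mem_univ, if_true, y2, ← sum_mul,
      ← mul_sum, b2]
    field_simp; ring
  rcases a with _ | ⟨a, i⟩ <;> rcases b with _ | ⟨b, j⟩ <;> simp [myc] at k
  · exact (p.1 _ _).trans (x1 b j k.1 k.2)
  · exact x1 a i k.1 k.2
  · exact k.2.elim (fun k => x2 a b i j k.1 k.2) fun k => (p.1 _ _).trans (x2 b a j i k.1 k.2)

lemma mono [Nonempty V] [Nonempty W] (r : ℕ) (G : SimpleGraph V) (H : SimpleGraph W) (h : theta H ≤ theta G) :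
    theta (myc r H) ≤ theta (myc r G) := by
  classical
  have n : ∀ {A : Type} [Fintype A] [Nonempty A] (G : SimpleGraph A), {s | GR G s}.Nonempty := fun G =>
    let ⟨_, t, k⟩ := dual G; ⟨t + 1, k.2.2.2.2.2 _ (lt_add_one t)⟩
  obtain ⟨B, t, b1, b2, b3, b4, b5, b6⟩ := dual G
  rw [theta_eq, theta_eq] at h ⊢
  have k : GR H t := GR.lim fun s e => by
    obtain ⟨x, ⟨Z, z1, z2, z3⟩, y⟩ := exists_lt_of_csInf_lt (n H) (h.trans_lt
      ((csInf_le ⟨1, fun _ k => GR.one k⟩ (b6 ((t + s) / 2) (by linarith))).trans_lt (by linarith : _ < s)))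
    exact ⟨Z, z1, fun v => by linarith [z2 v], z3⟩
  exact csInf_le_csInf ⟨1, fun _ k => GR.one k⟩ (n _) fun s => step b1 b2 b3 b4 b5 k

theorem result (r : ℕ) (_ : 1 ≤ r) :
    ∃ g : ℝ → ℝ, ∀ (V : Type) [Fintype V] [Nonempty V] (G : SimpleGraph V), theta (myc r G) = g (theta G) := by
  refine ⟨fun x => sSup {y | ∃ (V : Type) (_ : Fintype V) (_ : Nonempty V)
    (G : SimpleGraph V), theta G = x ∧ y = theta (myc r G)}, fun V _ _ G => ?_⟩
  refine (csSup_singleton _).symm.trans (congrArg _ (Set.ext fun y => ⟨?_, ?_⟩))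
  · rintro rfl; exact ⟨V, ‹_›, ‹_›, G, rfl, rfl⟩
  · rintro ⟨W, _, _, H, e, rfl⟩; exact le_antisymm (mono r G H e.le) (mono r H G e.ge)

end Pool.Agent.Results.MP_8a180b_co.Yes
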